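import Mathlib
import Pool.Agent.V11179.PfDefs
import Pool.Agent.V11179.PfFin
import Pool.Agent.V11179.PfSum

/-!
# Pfaffians built from Al-Salam–Carlitz moment sequences

Both identities of MP_f5e7e2_co hold for every `n ≥ 1`. They are proved for all elements `a`, `q`
of a field of characteristic zero such that no positive power of `q` is `1`; this includes the
case of two indeterminates `a`, `q` in their field of rational functions.
Rows and columns are numbered `0, …, 2 n - 1`.
-/

namespace Pool.Agent.Results.MP_f5e7e2_co.BothIdentities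

open Pool.Agent.V11179.PfB

theorem result :
    ∀ (K : Type) [Field K] [CharZero K] (a q : K), (∀ j : ℕ, 1 ≤ j → q ^ j ≠ 1) →
    ∀ n : ℕ, 1 ≤ n →
      pfaff n (Matrix.of fun i j : Fin (2 * n) =>
        (q ^ (i : ℕ) - q ^ (j : ℕ)) * gm a q (i + j - 1)) =
        a ^ (n * (n - 1)) *
          q ^ (en n - 2 * ((n / 2 : ℕ) : ℤ) * (((n - 1) / 2 : ℕ) : ℤ)) * Pn q n ∧
      pfaff n (Matrix.of fun i j : Fin (2 * n) =>
        (q ^ (i : ℕ) - q ^ (j : ℕ)) * gm a q (i + j)) =
        a ^ (n * (n - 1)) * q ^ en n * Pn q n *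
          ∑ k ∈ Finset.range (n + 1), q ^ ck n k * gb (q ^ 2) n k * a ^ k := by
  intro K _ _ a q hq n _
  rw [pfaff_eq, pfaff_eq]
  · exact main a q hq n
  · intro i j
    simp only [Matrix.of_apply]
    rw [add_comm (i : ℕ) (j : ℕ)]
    ring
  · intro i j
    simp only [Matrix.of_apply]
    rw [add_comm (i : ℕ) (j : ℕ)]
    ring

end Pool.Agent.Results.MP_f5e7e2_co.BothIdentities
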